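import Pool.Agent.H174.GP.Final

/-!
# Factor complexity of binary generalized pseudostandard words (MP_9967f4, Q1: true)

Every binary generalized pseudostandard word `u` satisfies `C_u(n) ≤ 6 n - 4 < 6 n` for all
`n ≥ 1`.

The letters `0, 1` are `false, true`.  The directive sequences are indexed from `0`: the prefix
`w_{k+1}` is the `Θ k`-palindromic closure of `w_k (Δ k)`.
-/

namespace Pool.Agent.Results.MP_9967f4_co.ComplexityBound

open Pool.Agent.H174.GP

/-- The two antimorphisms: `E` (exchange) and `R` (reversal). -/
inductive Anti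
  | E | R

/-- Action of the antimorphisms on words: `R` reverses the word, `E` reverses it and exchanges
the two letters. -/
def Anti.ap : Anti → List Bool → List Bool
  | .R, w => w.reverse
  | .E, w => (w.map (fun a => !a)).reverse

/-- `v` is the `t`-palindromic closure of `w`: the shortest word fixed by `t` which begins
with `w`. -/
structure IsClosure (t : Anti) (w v : List Bool) : Prop where
  fixed : t.ap v = v
  begins : w <+: v
  shortest : ∀ v', t.ap v' = v' → w <+: v' → v.length ≤ v'.length

/-- The factor of length `n` of the infinite word `u` which starts at position `i`. -/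
def factor (u : ℕ → Bool) (i n : ℕ) : List Bool := (List.range n).map (fun j => u (i + j))

/-- `u` is the binary generalized pseudostandard word directed by `(Δ, Θ)`: there are words
`w 0 = ε` and `w (k + 1)`, the `Θ k`-palindromic closure of `w k` followed by the letter `Δ k`,
and every `w k` is the beginning of `u`. -/
def IsGPS (Δ : ℕ → Bool) (Θ : ℕ → Anti) (u : ℕ → Bool) : Prop :=
  ∃ w : ℕ → List Bool, w 0 = [] ∧ (∀ k, IsClosure (Θ k) (w k ++ [Δ k]) (w (k + 1))) ∧
    ∀ k, w k = factor u 0 (w k).length

/-- The factor complexity: the number of different factors of length `n`. -/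
noncomputable def complexity (u : ℕ → Bool) (n : ℕ) : ℕ :=
  Set.ncard {v : List Bool | ∃ i, v = factor u i n}

def Anti.b : Anti → Bool
  | .E => true
  | .R => false

theorem ap_eq (t : Anti) (w : List Bool) : t.ap w = anti t.b w := by
  cases t with
  | E => simp [Anti.ap, Anti.b, anti]
  | R => simp [Anti.ap, Anti.b, anti]

theorem isClosure_pclosure (t : Anti) (w : List Bool) : IsClosure t w (pclosure t.b w) := by
  refine ⟨?_, prefix_pclosure _ _, ?_⟩
  · rw [ap_eq]; exact pclosure_pal _ _
  · intro v' h1 h2
    rw [ap_eq] at h1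
    exact pclosure_min _ _ _ h1 h2

/-- The closure is unique. -/
theorem eq_pclosure {t : Anti} {w v : List Bool} (h : IsClosure t w v) : v = pclosure t.b w := by
  have h1 := h.fixed
  rw [ap_eq] at h1
  have h2 := h.shortest _ (isClosure_pclosure t w).fixed (isClosure_pclosure t w).begins
  have h3 := pclosure_min t.b w v h1 h.begins
  obtain ⟨z, rfl⟩ := h.begins
  have hlen : (pclosure t.b w).length = w.length + pidx t.b w := by
    unfold pclosure
    rw [List.length_append, anti_length, List.length_take, min_eq_left (pidx_le_length _ w)]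
  rw [List.length_append] at h2 h3
  have hz : z.length = pidx t.b w := by omega
  have hzle : z.length ≤ w.length := by rw [hz]; exact pidx_le_length _ _
  have h4 : anti t.b z ++ anti t.b w = w ++ z := by rw [← anti_append]; exact h1
  have h5 : w.take z.length = anti t.b z := by
    have := congrArg (List.take z.length) h4
    rw [List.take_append_of_le_length (by simp), List.take_append_of_le_length hzle] at this
    rw [← this, List.take_of_length_le (by simp)]
  unfold pclosure
  rw [← hz, h5, anti_anti]

theorem factor_length (u : ℕ → Bool) (i n : ℕ) : (factor u i n).length = n := by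
  simp [factor]

theorem factor_append (u : ℕ → Bool) (i m n : ℕ) :
    factor u i (m + n) = factor u i m ++ factor u (i + m) n := by
  unfold factor
  rw [List.range_add, List.map_append, List.map_map]
  congr 1
  apply List.map_congr_left
  intro j _
  simp [Nat.add_assoc]

theorem factor_infix (u : ℕ → Bool) (i n L : ℕ) (h : i + n ≤ L) :
    factor u i n <:+: factor u 0 L := by
  obtain ⟨r, rfl⟩ := Nat.exists_eq_add_of_le h
  rw [factor_append, factor_append]
  exact ⟨factor u 0 i, factor u (0 + (i + n)) r, by simp⟩

/-- the sequence of the closures -/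
def pref (Δ : ℕ → Bool) (Θ : ℕ → Anti) : ℕ → List Bool
  | 0 => []
  | k + 1 => pclosure (Θ k).b (pref Δ Θ k ++ [Δ k])

theorem eq_pref {Δ : ℕ → Bool} {Θ : ℕ → Anti} {w : ℕ → List Bool} (h0 : w 0 = [])
    (h : ∀ k, IsClosure (Θ k) (w k ++ [Δ k]) (w (k + 1))) (k : ℕ) : w k = pref Δ Θ k := by
  induction k with
  | zero => exact h0
  | succ k ih => rw [eq_pclosure (h k), ih]; rfl

theorem pref_step (Δ : ℕ → Bool) (Θ : ℕ → Anti) (k : ℕ) :
    pref Δ Θ k <+: pref Δ Θ (k + 1) :=
  (List.prefix_append _ _).trans (prefix_pclosure (Θ k).b (pref Δ Θ k ++ [Δ k]))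

theorem pref_mono (Δ : ℕ → Bool) (Θ : ℕ → Anti) {k l : ℕ} (h : k ≤ l) :
    pref Δ Θ k <+: pref Δ Θ l := by
  induction l, h using Nat.le_induction with
  | base => exact List.prefix_rfl
  | succ l _ ih => exact ih.trans (pref_step Δ Θ l)

theorem le_pref_length (Δ : ℕ → Bool) (Θ : ℕ → Anti) (k : ℕ) : k ≤ (pref Δ Θ k).length := by
  induction k with
  | zero => simp
  | succ k ih =>
    have := (prefix_pclosure (Θ k).b (pref Δ Θ k ++ [Δ k])).length_le
    simp only [List.length_append, List.length_singleton] at this
    simp only [pref]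
    omega

/-- Existence and uniqueness of the generalized pseudostandard word. -/
theorem existsUnique_gps (Δ : ℕ → Bool) (Θ : ℕ → Anti) : ∃! u, IsGPS Δ Θ u := by
  refine ⟨fun i => (pref Δ Θ (i + 1)).getD i false, ⟨pref Δ Θ, rfl, fun k => ?_, fun k => ?_⟩, ?_⟩
  · exact isClosure_pclosure _ _
  · apply List.ext_getElem (by simp [factor])
    intro i h1 h2
    simp only [factor, List.getElem_map, List.getElem_range, Nat.zero_add]
    have hi : i < (pref Δ Θ (i + 1)).length := le_pref_length Δ Θ (i + 1)
    rw [List.getD_eq_getElem _ _ hi]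
    rcases Nat.le_total k (i + 1) with h | h
    · exact (List.IsPrefix.getElem (pref_mono Δ Θ h) h1)
    · exact (List.IsPrefix.getElem (pref_mono Δ Θ h) hi).symm
  · rintro u ⟨w, h0, hw, hu⟩
    funext i
    have h1 := eq_pref h0 hw (i + 1)
    have hi : i < (pref Δ Θ (i + 1)).length := le_pref_length Δ Θ (i + 1)
    rw [List.getD_eq_getElem _ _ hi]
    have h2 := hu (i + 1)
    rw [h1] at h2
    have h3 : (pref Δ Θ (i + 1))[i]'hi =
        (factor u 0 (pref Δ Θ (i + 1)).length)[i]'(by rw [factor_length]; exact hi) := by
      congr 1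
    rw [h3]
    simp [factor]

/-- **Theorem (MP_9967f4, Q1).** For all directive sequences `Δ`, `Θ` there is exactly one binary
generalized pseudostandard word `u`, and `C_u(n) ≤ 6 n - 4`, in particular `C_u(n) < 6 n`, for
all `n ≥ 1`. -/
theorem result (Δ : ℕ → Bool) (Θ : ℕ → Anti) :
    (∃! u, IsGPS Δ Θ u) ∧
      ∀ u, IsGPS Δ Θ u → ∀ n, 1 ≤ n → complexity u n + 4 ≤ 6 * n ∧ complexity u n < 6 * n := by
  refine ⟨existsUnique_gps Δ Θ, ?_⟩
  rintro u ⟨w, h0, hw, hu⟩ n hn
  have key : complexity u n + 4 ≤ 6 * n := by
    have hweq := eq_pref h0 hw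
    -- all factors of length `n` occur before a bounded position
    have hfin : {v : List Bool | ∃ i, v = factor u i n}.Finite :=
      (List.finite_length_eq Bool n).subset (by
        rintro v ⟨i, rfl⟩
        exact factor_length u i n)
    obtain ⟨N, hN⟩ : ∃ N, ∀ v ∈ {v : List Bool | ∃ i, v = factor u i n},
        ∃ i ≤ N, v = factor u i n := by
      choose! pos hpos using (fun (v : List Bool)
        (hv : v ∈ {v : List Bool | ∃ i, v = factor u i n}) => hv)
      obtain ⟨N, hN⟩ := (hfin.image pos).bddAbove
      exact ⟨N, fun v hv => ⟨pos v, hN ⟨v, hv, rfl⟩, hpos v hv⟩⟩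
    have hcount := factor_count Δ (fun k => (Θ k).b) (pref Δ Θ) rfl (fun k => rfl) (N + n) n hn
      (by
        have := le_pref_length Δ Θ (N + n + 1)
        omega)
    have hle : complexity u n ≤ cnt (fun v => v <:+: pref Δ Θ (N + n + 1)) n := by
      apply Set.ncard_le_ncard _ (fin_len n _)
      intro v hv
      obtain ⟨i, hi, rfl⟩ := hN v hv
      refine ⟨factor_length u i n, ?_⟩
      have h1 := hu (N + n + 1)
      rw [hweq] at h1
      have h2 := factor_infix u i n (pref Δ Θ (N + n + 1)).length (by
        have := le_pref_length Δ Θ (N + n + 1)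
        omega)
      rw [← h1] at h2
      exact h2
    omega
  exact ⟨key, by omega⟩

end Pool.Agent.Results.MP_9967f4_co.ComplexityBound
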